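import Pool.Agent.J4H48.LA.Stm

set_option autoImplicit false

/-! Project LA, piece POS: positivity. -/

namespace Pool.Agent.J4H53.LA

open Finset Pool.Agent.J4H48.LA

section

variable {m : ℕ} (cls : Fin (m + 1) → Fin 3) (pos : Fin (m + 1) → ℤ)

/-- two parallel lines -/
noncomputable def vv (e f : Fin (m + 1)) : ℝ :=
  if cls e = cls f then Real.log ((pos e - pos f : ℤ) : ℝ) else 0

/-- three different directions -/
noncomputable def uu (e f t : Fin (m + 1)) : ℝ :=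
  if cls e ≠ cls f ∧ cls f ≠ cls t ∧ cls t ≠ cls e then
    Real.log ((pos e + pos f + pos t : ℤ) : ℝ) else 0

/-- the weight -/
noncomputable def ww (e f t : Fin (m + 1)) : ℝ :=
  vv cls pos e f + vv cls pos f t + vv cls pos t e + uu cls pos e f t

theorem ww_nonneg (e f t : Fin (m + 1)) : 0 ≤ ww cls pos e f t := by
  have h1 : ∀ a b, 0 ≤ vv cls pos a b := by
    intro a b
    unfold vv
    split_ifs
    · exact Real.log_intCast_nonneg _
    · exact le_rfl
  have h2 : 0 ≤ uu cls pos e f t := by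
    unfold uu
    split_ifs
    · exact Real.log_intCast_nonneg _
    · exact le_rfl
  unfold ww
  have := h1 e f
  have := h1 f t
  have := h1 t e
  linarith

theorem ww_cyc (e f t : Fin (m + 1)) : ww cls pos f t e = ww cls pos e f t := by
  have h : uu cls pos f t e = uu cls pos e f t := by
    unfold uu
    by_cases h : cls e ≠ cls f ∧ cls f ≠ cls t ∧ cls t ≠ cls e
    · rw [if_pos h, if_pos ⟨h.2.1, h.2.2, h.1⟩]
      congr 2
      ring
    · rw [if_neg h, if_neg (fun h' => h ⟨h'.2.2, h'.1, h'.2.1⟩)]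
  unfold ww
  rw [h]
  ring

theorem ww_del {e f : Fin (m + 1)} (hef : cls e ≠ cls f) (t : Fin (m + 1)) :
    ww cls pos e f t = Real.log (del cls pos e f t : ℝ) := by
  have hfe : ¬ cls f = cls e := fun h => hef h.symm
  unfold ww vv uu del
  by_cases h1 : cls t = cls e
  · have h2 : ¬ cls f = cls t := fun h => hef (h.trans h1).symm
    rw [if_neg hef, if_neg h2, if_pos h1, if_neg (fun h => h.2.2 h1), if_pos h1]
    have h3 : ((pos e - pos t : ℤ) : ℝ) = -((pos t - pos e : ℤ) : ℝ) := by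
      push_cast
      ring
    rw [h3, Real.log_neg_eq_log]
    ring
  · by_cases h2 : cls t = cls f
    · rw [if_neg hef, if_pos h2.symm, if_neg h1, if_neg (fun h => h.2.1 h2.symm), if_neg h1,
        if_pos h2]
      ring
    · rw [if_neg hef, if_neg (fun h => h2 h.symm), if_neg h1,
        if_pos ⟨hef, fun h => h2 h.symm, h1⟩, if_neg h1, if_neg h2]
      ring

end

theorem pair_bound {m : ℕ} {cls : Fin (m + 1) → Fin 3} {pos : Fin (m + 1) → ℤ} {ℓ τ N : ℝ}
    {e f : Fin (m + 1)} {P c : Fin (m + 1) → Fin (m + 1) → ℝ} (hτ : 0 ≤ τ) (hN : 0 ≤ N)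
    (hef : cls e ≠ cls f) (hP : Loc cls pos ℓ τ e f P) (hc : Circ cls c)
    (hcN : ∀ s t, |c s t| ≤ N) (h0 : ∑ s, ∑ t, c s t * P s t = 0) :
    |c e f * ℓ + ∑ t, (c e f + c f t + c t e) * ww cls pos e f t| ≤
      3 * N * τ * ((m : ℝ) + 1) ^ 2 := by
  have hne : e ≠ f := fun h => hef (by rw [h])
  obtain ⟨I, hI⟩ : ∃ I : Finset (Fin (m + 1)), I = (univ.erase e).erase f := ⟨_, rfl⟩
  have hfe : f ∈ univ.erase e := mem_erase.2 ⟨hne.symm, mem_univ f⟩
  have hsplit : ∀ F : Fin (m + 1) → ℝ, ∑ t, F t = F e + F f + ∑ t ∈ I, F t := by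
    intro F
    rw [hI, ← add_sum_erase univ F (mem_univ e), ← add_sum_erase _ F hfe, add_assoc]
  have hmem : ∀ t, t ∈ I → t ≠ e ∧ t ≠ f := by
    intro t ht
    rw [hI, mem_erase, mem_erase] at ht
    exact ⟨ht.2.1, ht.1⟩
  have hcard : (I.card : ℝ) + 2 = (m : ℝ) + 1 := by
    have h1 : I.card + 2 = m + 1 := by
      rw [hI, card_erase_of_mem hfe, card_erase_of_mem (mem_univ e)]
      have h2 : 2 ≤ (univ : Finset (Fin (m + 1))).card := by
        have h3 : ({e, f} : Finset (Fin (m + 1))).card = 2 := card_pair hne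
        rw [← h3]
        exact card_le_univ _
      have h4 : (univ : Finset (Fin (m + 1))).card = m + 1 := by simp
      omega
    exact_mod_cast h1
  have Pee : P e e = 0 := by
    have := hP.anti e e
    linarith
  have Pff : P f f = 0 := by
    have := hP.anti f f
    linarith
  have cee : c e e = 0 := hc.same e e rfl
  have cff : c f f = 0 := hc.same f f rfl
  have A1 : P e f = ℓ - ∑ t ∈ I, P e t := by
    have := hP.sum e
    rw [hsplit, if_pos rfl, Pee] at this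
    linarith
  have A2 : ∀ t ∈ I, P f t = -P e t + ∑ u ∈ I, P t u := by
    intro t ht
    have := hP.sum t
    rw [hsplit, if_neg (hmem t ht).1, if_neg (hmem t ht).2, hP.anti e t, hP.anti f t] at this
    linarith
  have hR : ∑ s, ∑ t, c s t * P s t = 2 * (c e f * P e f) + 2 * ∑ t ∈ I, c e t * P e t +
      2 * ∑ t ∈ I, c f t * P f t + ∑ s ∈ I, ∑ t ∈ I, c s t * P s t := by
    have e1 : ∀ s, ∑ t, c s t * P s t = c s e * P s e + c s f * P s f +
        ∑ t ∈ I, c s t * P s t := fun s => hsplit _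
    simp only [e1]
    rw [hsplit, sum_add_distrib, sum_add_distrib]
    have e2 : ∑ s ∈ I, c s e * P s e = ∑ s ∈ I, c e s * P e s :=
      sum_congr rfl (fun s _ => by rw [hc.anti e s, hP.anti e s]; ring)
    have e3 : ∑ s ∈ I, c s f * P s f = ∑ s ∈ I, c f s * P f s :=
      sum_congr rfl (fun s _ => by rw [hc.anti f s, hP.anti f s]; ring)
    rw [e2, e3, Pee, Pff, hc.anti e f, hP.anti e f]
    ring
  have hE : ∑ t ∈ I, (c e f + c f t + c t e) * (ww cls pos e f t + P e t) =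
      ∑ t ∈ I, (c e f + c f t + c t e) * ww cls pos e f t + ∑ t ∈ I, c e f * P e t +
        ∑ t ∈ I, c f t * P e t - ∑ t ∈ I, c e t * P e t := by
    rw [← sum_add_distrib, ← sum_add_distrib, ← sum_sub_distrib]
    refine sum_congr rfl (fun t _ => ?_)
    rw [hc.anti e t]
    ring
  have hA : ∑ t ∈ I, c f t * P f t = -∑ t ∈ I, c f t * P e t +
      ∑ t ∈ I, c f t * ∑ u ∈ I, P t u := by
    rw [← sum_neg_distrib, ← sum_add_distrib]
    refine sum_congr rfl (fun t ht => ?_)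
    rw [A2 t ht]
    ring
  have hB : c e f * P e f = c e f * ℓ - ∑ t ∈ I, c e f * P e t := by
    rw [A1, mul_sub, mul_sum]
  have hT : ∑ t, (c e f + c f t + c t e) * ww cls pos e f t =
      ∑ t ∈ I, (c e f + c f t + c t e) * ww cls pos e f t := by
    rw [hsplit, cee, cff, hc.anti e f]
    ring
  have hmain : c e f * ℓ + ∑ t, (c e f + c f t + c t e) * ww cls pos e f t =
      ∑ t ∈ I, (c e f + c f t + c t e) * (ww cls pos e f t + P e t) -
        ∑ t ∈ I, c f t * ∑ u ∈ I, P t u - (∑ s ∈ I, ∑ t ∈ I, c s t * P s t) / 2 := by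
    rw [hT, hE]
    rw [hR, hA, hB] at h0
    linarith
  have B1 : |∑ t ∈ I, (c e f + c f t + c t e) * (ww cls pos e f t + P e t)| ≤
      I.card * (3 * N * τ) := by
    refine (abs_sum_le_sum_abs _ _).trans ?_
    rw [← nsmul_eq_mul]
    refine sum_le_card_nsmul _ _ _ (fun t ht => ?_)
    rw [abs_mul]
    have h1 : |c e f + c f t + c t e| ≤ 3 * N := by
      refine (abs_add_three _ _ _).trans ?_
      have := hcN e f
      have := hcN f t
      have := hcN t e
      linarith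
    have h2 : |ww cls pos e f t + P e t| ≤ τ := by
      rw [ww_del cls pos hef, add_comm]
      exact hP.main t (hmem t ht).1 (hmem t ht).2
    exact mul_le_mul h1 h2 (abs_nonneg _) (by positivity)
  have B2 : |∑ t ∈ I, c f t * ∑ u ∈ I, P t u| ≤ I.card * (N * (I.card * τ)) := by
    refine (abs_sum_le_sum_abs _ _).trans ?_
    rw [← nsmul_eq_mul]
    refine sum_le_card_nsmul _ _ _ (fun t ht => ?_)
    rw [abs_mul]
    refine mul_le_mul (hcN f t) ?_ (abs_nonneg _) hN
    refine (abs_sum_le_sum_abs _ _).trans ?_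
    rw [← nsmul_eq_mul]
    exact sum_le_card_nsmul _ _ _ (fun u hu => hP.small t u (hmem t ht).1 (hmem t ht).2
      (hmem u hu).1 (hmem u hu).2)
  have B3 : |∑ s ∈ I, ∑ t ∈ I, c s t * P s t| ≤ I.card * (I.card * (N * τ)) := by
    refine (abs_sum_le_sum_abs _ _).trans ?_
    rw [← nsmul_eq_mul]
    refine sum_le_card_nsmul _ _ _ (fun s hs => ?_)
    refine (abs_sum_le_sum_abs _ _).trans ?_
    rw [← nsmul_eq_mul]
    refine sum_le_card_nsmul _ _ _ (fun t ht => ?_)
    rw [abs_mul]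
    exact mul_le_mul (hcN s t) (hP.small s t (hmem s hs).1 (hmem s hs).2
      (hmem t ht).1 (hmem t ht).2) (abs_nonneg _) hN
  rw [hmain, ← hcard]
  obtain ⟨κ, hκ⟩ : ∃ κ : ℝ, κ = I.card := ⟨_, rfl⟩
  have hκ0 : 0 ≤ κ := by rw [hκ]; positivity
  rw [← hκ] at B1 B2 B3 ⊢
  rw [abs_le] at B1 B2 B3 ⊢
  have hNτ : 0 ≤ N * τ := mul_nonneg hN hτ
  have h1 : κ * (3 * N * τ) + κ * (N * (κ * τ)) + κ * (κ * (N * τ)) / 2 ≤
      3 * N * τ * (κ + 2) ^ 2 := by
    have h2 : 0 ≤ N * τ * κ := mul_nonneg hNτ hκ0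
    have h3 : 0 ≤ N * τ * κ ^ 2 := mul_nonneg hNτ (sq_nonneg κ)
    nlinarith
  constructor <;> linarith [B1.1, B1.2, B2.1, B2.2, B3.1, B3.2]

theorem t_POS : S_POS := by
  intro m cls pos hG ℓ τ P hτ hℓ hP c hc h0
  obtain ⟨⟨e0, f0⟩, -, hmax⟩ := exists_max_image (univ : Finset (Fin (m + 1) × Fin (m + 1)))
    (fun x => |c x.1 x.2|) ⟨(0, 0), mem_univ _⟩
  obtain ⟨N, hN⟩ : ∃ N : ℝ, N = |c e0 f0| := ⟨_, rfl⟩
  have hN0 : 0 ≤ N := by rw [hN]; exact abs_nonneg _
  have hcN : ∀ s t, |c s t| ≤ N := fun s t => by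
    rw [hN]
    exact hmax (s, t) (mem_univ _)
  have hX : ∀ e f, c e f * (c e f * ℓ + ∑ t, (c e f + c f t + c t e) * ww cls pos e f t) ≤
      N * (3 * N * τ * ((m : ℝ) + 1) ^ 2) := by
    intro e f
    by_cases h : cls e = cls f
    · rw [hc.same e f h, zero_mul]
      positivity
    · refine (le_abs_self _).trans ?_
      rw [abs_mul]
      exact mul_le_mul (hcN e f) (pair_bound hτ hN0 h (hP e f h) hc hcN (h0 e f h))
        (abs_nonneg _) hN0
  have hsum : ∑ e, ∑ f, c e f * (c e f * ℓ + ∑ t, (c e f + c f t + c t e) *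
      ww cls pos e f t) ≤ ((m : ℝ) + 1) * (((m : ℝ) + 1) *
        (N * (3 * N * τ * ((m : ℝ) + 1) ^ 2))) := by
    have hc1 : ((univ : Finset (Fin (m + 1))).card : ℝ) = (m : ℝ) + 1 := by simp
    rw [← hc1, ← nsmul_eq_mul, ← nsmul_eq_mul, hc1]
    refine sum_le_card_nsmul _ _ _ (fun e _ => ?_)
    exact sum_le_card_nsmul _ _ _ (fun f _ => hX e f)
  have hexp : ∑ e, ∑ f, c e f * (c e f * ℓ + ∑ t, (c e f + c f t + c t e) *
      ww cls pos e f t) = ℓ * ∑ e, ∑ f, (c e f) ^ 2 +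
        ∑ e, ∑ f, ∑ t, c e f * ((c e f + c f t + c t e) * ww cls pos e f t) := by
    rw [mul_sum, ← sum_add_distrib]
    refine sum_congr rfl (fun e _ => ?_)
    rw [mul_sum, ← sum_add_distrib]
    refine sum_congr rfl (fun f _ => ?_)
    rw [mul_add, mul_sum]
    ring
  have hcyc : ∀ G : Fin (m + 1) → Fin (m + 1) → Fin (m + 1) → ℝ,
      ∑ e, ∑ f, ∑ t, G f t e = ∑ e, ∑ f, ∑ t, G e f t := by
    intro G
    rw [sum_comm]
    refine sum_congr rfl (fun f _ => ?_)
    rw [sum_comm]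
  have hpos : 0 ≤ ∑ e, ∑ f, ∑ t, c e f * ((c e f + c f t + c t e) * ww cls pos e f t) := by
    have e1 := hcyc (fun e f t => c e f * ((c e f + c f t + c t e) * ww cls pos e f t))
    have e2 := hcyc (fun e f t => c f t * ((c f t + c t e + c e f) * ww cls pos f t e))
    have e3 : 0 ≤ ∑ e, ∑ f, ∑ t, (c e f + c f t + c t e) ^ 2 * ww cls pos e f t :=
      sum_nonneg (fun e _ => sum_nonneg (fun f _ => sum_nonneg (fun t _ =>
        mul_nonneg (sq_nonneg _) (ww_nonneg cls pos e f t))))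
    have e4 : ∑ e, ∑ f, ∑ t, (c e f + c f t + c t e) ^ 2 * ww cls pos e f t =
        ∑ e, ∑ f, ∑ t, c e f * ((c e f + c f t + c t e) * ww cls pos e f t) +
        ∑ e, ∑ f, ∑ t, c f t * ((c f t + c t e + c e f) * ww cls pos f t e) +
        ∑ e, ∑ f, ∑ t, c t e * ((c t e + c e f + c f t) * ww cls pos t e f) := by
      simp only [← sum_add_distrib]
      refine sum_congr rfl (fun e _ => sum_congr rfl (fun f _ => sum_congr rfl (fun t _ => ?_)))
      rw [ww_cyc cls pos e f t, ← ww_cyc cls pos t e f]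
      ring
    linarith
  have hsq : N ^ 2 ≤ ∑ e, ∑ f, (c e f) ^ 2 := by
    have h1 : (c e0 f0) ^ 2 ≤ ∑ f, (c e0 f) ^ 2 :=
      single_le_sum (f := fun f => (c e0 f) ^ 2) (fun f _ => sq_nonneg _) (mem_univ f0)
    have h2 : ∑ f, (c e0 f) ^ 2 ≤ ∑ e, ∑ f, (c e f) ^ 2 :=
      single_le_sum (f := fun e => ∑ f, (c e f) ^ 2)
        (fun e _ => sum_nonneg (fun f _ => sq_nonneg _)) (mem_univ e0)
    rw [hN, sq_abs]
    exact h1.trans h2
  have hℓ0 : 0 ≤ ℓ := le_trans (by positivity) hℓ.le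
  have hfin : ℓ * N ^ 2 ≤ 3 * τ * ((m : ℝ) + 1) ^ 4 * N ^ 2 := by
    have h1 : ℓ * N ^ 2 ≤ ℓ * ∑ e, ∑ f, (c e f) ^ 2 := mul_le_mul_of_nonneg_left hsq hℓ0
    have h2 : ((m : ℝ) + 1) * (((m : ℝ) + 1) * (N * (3 * N * τ * ((m : ℝ) + 1) ^ 2))) =
        3 * τ * ((m : ℝ) + 1) ^ 4 * N ^ 2 := by ring
    linarith
  have hN00 : N = 0 := by
    by_contra hne
    have h1 : 0 < N ^ 2 := by positivity
    nlinarith
  funext e f
  have := hcN e f
  rw [hN00] at this
  exact abs_nonpos_iff.1 this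

end Pool.Agent.J4H53.LA
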